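import Pool.Agent.H30.HQ.Targets
import Pool.Agent.H42.FR.SP

/-!
# Row QGM of hqn_modules: the map of the complex projective space onto the quaternionic one
-/

set_option autoImplicit false

open Topology Filter

namespace Pool.Agent.H76.HQ

open Pool.Agent.H59 Pool.Agent.H48.FR Pool.Agent.H58.FL Pool.Agent.H58.JU Pool.Agent.H30.HQ
open scoped Quaternion

noncomputable section

theorem pf_QGM (hQVA : T_QVA) (hCMH : T_CMH) : T_QGM := by
  intro n
  obtain ⟨hc, -, hs, hne⟩ := hQVA n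
  let G : CPn (2 * n) → HPn n :=
    fun P => (PP.mk (qv (PP.rep P)) (hne _ (PP.rep_ne P)) : PP ℍ[ℝ] n)
  have hG : ∀ (x : Fin (2 * n + 1) → ℂ) (hx : x ≠ 0) (hx' : qv x ≠ 0),
      G (PP.mk x hx : PP ℂ (2 * n)) = (PP.mk (qv x) hx' : PP ℍ[ℝ] n) := by
    intro x hx hx'
    obtain ⟨a, ha, h1⟩ := PP.exists_rep x hx
    have h2 : qv (PP.rep (PP.mk x hx)) = qt a 0 • qv x := by
      rw [h1]
      exact hs a x
    have h3 : qt a 0 ≠ 0 := by
      intro h
      apply hne _ (PP.rep_ne (PP.mk x hx))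
      rw [h2, h, zero_smul]
    exact (PP.mk_eq_iff _ _).2 ⟨qt a 0, h3, h2.symm⟩
  have hcont : Continuous G := by
    obtain ⟨hc1, -, hc2, hc3⟩ := Pool.Agent.H42.FR.sp ℂ (2 * n)
    have hq : IsQuotientMap (prS : Sph ℂ (2 * n) → PP ℂ (2 * n)) :=
      hc2.isClosedMap.isQuotientMap hc2 hc3
    have h1 : (fun x : Sph ℂ (2 * n) => G (prS x)) =
        fun x : Sph ℂ (2 * n) => (PP.mk (qv x.1) (hne _ (sph_ne x)) : HPn n) := by
      funext x
      exact hG x.1 (sph_ne x) (hne _ (sph_ne x))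
    have h2 : Continuous fun x : Sph ℂ (2 * n) => G (prS x) := by
      rw [h1]
      exact hCMH (Sph ℂ (2 * n)) n (fun x => qv x.1) (fun x => hne _ (sph_ne x))
        (hc.comp continuous_subtype_val)
    exact hq.continuous_iff.2 h2
  exact ⟨⟨G, hcont⟩, hG⟩

end

end Pool.Agent.H76.HQ
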